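import Pool.Agent.TH101.RG.Wts
import Pool.Agent.TH536.RI.Par

set_option autoImplicit false
set_option maxHeartbeats 4000000

/-! # The repelling weights for arbitrary residues, with a free upper limit for the primes -/

open Finset Filter

namespace Pool.Agent.TH536.RI

open Pool.Agent.TH101.RG (weightsG_at)
open Pool.Agent.H312R2.RG
open Pool.Agent.H378R2
open Pool.Agent.H378R2.LSBV (QQ mem_QQ TT TT_nonneg sum_wt)
open Pool.Agent.H256R2.SC (Col emb colr Lv emb_mem emb_surj colr_eq qq Hyp Zs Zs_ge_one SS tail_bound second_lower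
  wt_nonneg)

theorem m_le {L : ℝ} {m : ℕ} (hL : 0 < L) (hl : 10 ≤ Real.log L) (h2m : (2 : ℝ) ^ m ≤ L ^ (1 / 4 : ℝ)) :
    (m : ℝ) + 1 ≤ Real.log L := by
  have h1 : (m : ℝ) * Real.log 2 ≤ 1 / 4 * Real.log L := by
    have h2 := Real.log_le_log (by positivity) h2m
    rwa [Real.log_pow, Real.log_rpow hL] at h2
  have h3 := Real.log_two_gt_d9
  have hm0 : (0 : ℝ) ≤ m := Nat.cast_nonneg m
  nlinarith

/-- the repelling weights (after `Pool.Agent.TH101.RG.weightsG`, helper101) with primes at most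
`exp (2^m C₁ log log X)`, for up to `c₃ (m + 1) log X / log log X` classes -/
theorem weightsM (B : ℕ) : ∃ (A : ℕ) (c₃ C₁ : ℝ), 4 ≤ A ∧ 0 < c₃ ∧ 0 < C₁ ∧ ∀ Z : ℕ, ∀ᶠ X : ℝ in atTop,
    ∀ m : ℕ, (2 : ℝ) ^ m ≤ (Real.log X) ^ (1 / 4 : ℝ) →
    ∀ (ps : ℕ) (S : Finset ℕ), GoodP Z ps → BVat A X (WW X S ps) ps →
    ∀ (Bx U : Finset ℕ), ps ∈ Bx → 2 * (Bx.card : ℝ) ≤ (Real.log X) ^ 4 → U.Nonempty →
    (U.card : ℝ) ≤ c₃ * ((m : ℝ) + 1) * (Real.log X / Real.log (Real.log X)) →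
    ∃ PP : Finset ℕ, (∀ p ∈ PP, p.Prime ∧ (Real.log X) ^ A < p ∧
      (p : ℝ) ≤ Real.exp (2 ^ m * (C₁ * Real.log (Real.log X))) ∧ p ∉ Bx) ∧
    ∀ (res : ℕ → ↥U → ℤ), (∀ p ∈ PP, ∀ k l, k ≠ l → ¬ ((p : ℤ) ∣ res p k - res p l)) →
    (∀ p ∈ PP, ∀ k, ¬ ((p : ℤ) ∣ res p k)) → ∀ r : ℕ, r.Coprime (WW X S ps) →
  ∃ (V T : ℤ → ℝ) (Z₁ M M' M₂ : ℝ),
    (∀ a, 0 ≤ V a ∧ V a ≤ X ^ (1 / 100 : ℝ)) ∧ (∀ a, 0 ≤ T a) ∧
    (∀ a, T a < 1 → ∀ k : ↥U, ∃ p ∈ PP, (p : ℤ) ∣ a - res p k) ∧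
    1 ≤ Z₁ ∧ 3 / 4 * Z₁ ≤ M ∧ M ≤ Z₁ ∧ 3 / 4 * M ≤ M' ∧ 0 ≤ M₂ ∧ M₂ ≤ Z₁ / (Real.log X) ^ B ∧
    |∑ n ∈ (Icc 1 ⌊3 * X⌋₊).filter (fun n => n ≡ r [MOD WW X S ps]), Phi (n / X) * (V (n : ℤ) * T (n : ℤ)) -
      M₂ * (MPhi X * (1 / (WW X S ps : ℝ)))| ≤ Z₁ * (X / ((WW X S ps : ℝ) * (Real.log X) ^ B)) ∧
    |∑ n ∈ (Icc 1 ⌊3 * X⌋₊).filter (fun n => n ≡ r [MOD WW X S ps]),
        Phi (n / X) * ArithmeticFunction.vonMangoldt n * V (n : ℤ) -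
      M' * (LPhi X * (1 / ((WW X S ps).totient : ℝ)))| ≤
      Z₁ * (X / ((WW X S ps : ℝ) * (Real.log X) ^ B)) := by
  obtain ⟨C, X1, hC, hDS⟩ := large_total (2 * 0)
  obtain ⟨E, hE⟩ : ∃ E : ℕ, E = 2 ^ (2 * 0 + 1) := ⟨_, rfl⟩
  obtain ⟨D, hD⟩ : ∃ D : ℕ, D = E + B + 100 := ⟨_, rfl⟩
  obtain ⟨A, hA⟩ : ∃ A : ℕ, A = 4 * D := ⟨_, rfl⟩
  obtain ⟨c₃, C₁, hc₃, hC₁, hpar⟩ := paramsM A (B + 1) (by omega)
  refine ⟨A, min c₃ 1, C₁, by omega, lt_min hc₃ one_pos, hC₁, ?_⟩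
  intro Z
  have h9 : ∀ᶠ X : ℝ in atTop, (9 : ℝ) ≤ X ^ (3 / 500 : ℝ) :=
    (tendsto_rpow_atTop (by norm_num)).eventually_ge_atTop 9
  filter_upwards [hpar, ev_totient, eventually_ge_atTop 4, eventually_ge_atTop X1,
    Real.tendsto_log_atTop.eventually_ge_atTop 100,
    (Real.tendsto_log_atTop.comp Real.tendsto_log_atTop).eventually_ge_atTop 10, h9,
    ev_pow_lt (100000 * 2 ^ E + 8 * C) (E + B + 70) D (by omega),
    ev_power (100000 * 2 ^ E) (by positivity) (E + B + 10)]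
    with X hparX hφ hX4 hX1 hL hl10 h9X hG1 hG2
  intro m h2m ps S hps hBV Bx U hpsB hBx hUne hUc
  replace hl10 : 10 ≤ Real.log (Real.log X) := hl10
  have hL0 : 0 < Real.log X := by linarith
  have hu1 : 1 ≤ U.card := Finset.card_pos.2 hUne
  have hl0 : 0 < Real.log (Real.log X) := by linarith
  have hmp : (0 : ℝ) < (m : ℝ) + 1 := by positivity
  have hmin1 : min c₃ 1 * ((m : ℝ) + 1) * (Real.log X / Real.log (Real.log X)) ≤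
      c₃ * ((m : ℝ) + 1) * (Real.log X / Real.log (Real.log X)) :=
    mul_le_mul_of_nonneg_right (mul_le_mul_of_nonneg_right (min_le_left _ _) hmp.le) (by positivity)
  have hmin2 : min c₃ 1 * ((m : ℝ) + 1) * (Real.log X / Real.log (Real.log X)) ≤ Real.log X := by
    have h1 : min c₃ 1 * ((m : ℝ) + 1) * (Real.log X / Real.log (Real.log X)) ≤
        1 * ((m : ℝ) + 1) * (Real.log X / Real.log (Real.log X)) :=
      mul_le_mul_of_nonneg_right (mul_le_mul_of_nonneg_right (min_le_right _ _) hmp.le) (by positivity)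
    refine h1.trans ?_
    rw [one_mul, mul_div_assoc', div_le_iff₀ hl0, mul_comm]
    exact mul_le_mul_of_nonneg_left (m_le hL0 hl10 h2m) hL0.le
  obtain ⟨PP, h, z, Kc, δ, J, g1, g2, g3, g4, g5, g6, g7, g8, g9, g10, g11, g12⟩ :=
    hparX m h2m Bx U.card hBx hu1 (hUc.trans hmin1)
  refine ⟨PP, fun p hp => ⟨(g1 p hp).1, (g1 p hp).2.1, (g1 p hp).2.2.1.trans g12.le, (g1 p hp).2.2.2⟩, ?_⟩
  intro res hinj hres r hr
  exact weightsG_at B E D A hE hD hA C hC.le X hX4 hL h9X hG1 hG2 hφ (hDS X hX1) Z ps S hps hBV U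
    hUne (by linarith) PP h z Kc δ J
    (fun p hp => ⟨(g1 p hp).1, (g1 p hp).2.1, (g1 p hp).2.2.1, fun he => (g1 p hp).2.2.2 (he ▸ hpsB)⟩)
    g2 g3 g4 g5 g6 g7 g8 g9 g10 g11 res hinj hres r hr

end Pool.Agent.TH536.RI
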