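import Pool.Agent.TH536.RI.Cov
import Pool.Agent.TH536.RI.Wts
import Pool.Agent.TH101.RG.Good
import Pool.Agent.H378R2.Final

set_option autoImplicit false
set_option maxHeartbeats 4000000

/-! # Primes around whose linear images no integer is free of small prime factors -/

namespace Pool.Agent.TH536.RI

open Finset Filter
open Pool.Agent.H378R2
open Pool.Agent.TH101.RG
open Pool.Agent.H312R2.RG (not_dvd_diff BVat)
open Pool.Agent.H256R2.SC (ff)

open scoped Classical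

theorem goodP_mono {Z Z' ps : ℕ} (h : Z' ≤ Z) (hp : GoodP Z ps) : GoodP Z' ps := by
  rcases hp with h1 | h1
  · exact Or.inl h1
  · exact Or.inr ⟨h1.1, lt_of_le_of_lt h h1.2⟩

theorem modEq_of_primes {d r h : ℕ} (hd : Squarefree d) (hp : ∀ p ∈ d.primeFactors, r ≡ h [MOD p]) :
    r ≡ h [MOD d] := by
  rw [Nat.modEq_iff_dvd, Int.natCast_dvd, ← Nat.prod_primeFactors_of_squarefree hd]
  apply Finset.prod_primes_dvd
  · intro p hp'
    exact (Nat.prime_of_mem_primeFactors hp').prime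
  · intro p hp'
    rw [← Int.natCast_dvd]
    exact Nat.modEq_iff_dvd.1 (hp p hp')

theorem sum_inv_le_of_totient (n : ℕ) (hn : n ≠ 0) (A₀ : ℝ) (h : (n : ℝ) ≤ A₀ * (n.totient : ℝ)) :
    ∑ p ∈ n.primeFactors, (1 : ℝ) / p ≤ A₀ := by
  have h1 : (n.totient : ℝ) = n * ∏ p ∈ n.primeFactors, (1 - (1 : ℝ) / p) := by
    have := Nat.totient_eq_mul_prod_factors n
    have h2 : ((n.totient : ℚ) : ℝ) = ((n * ∏ p ∈ n.primeFactors, (1 - (p : ℚ)⁻¹) : ℚ) : ℝ) := by rw [this]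
    push_cast at h2
    rw [h2]
    simp only [one_div]
  have hn0 : (0 : ℝ) < n := by exact_mod_cast Nat.pos_of_ne_zero hn
  set P := ∏ p ∈ n.primeFactors, (1 - (1 : ℝ) / p) with hP
  set s := ∑ p ∈ n.primeFactors, (1 : ℝ) / p with hs
  have hs0 : 0 ≤ s := sum_nonneg fun _ _ => by positivity
  have h2 : 1 ≤ A₀ * P := by
    rw [h1] at h
    have h3 : (n : ℝ) * 1 ≤ n * (A₀ * P) := by linarith
    exact le_of_mul_le_mul_left h3 hn0
  have hP0 : 0 ≤ P := by
    rw [hP]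
    apply prod_nonneg
    intro p hp
    have : (2 : ℝ) ≤ p := by exact_mod_cast (Nat.prime_of_mem_primeFactors hp).two_le
    have : (1 : ℝ) / p ≤ 1 := by
      rw [div_le_one (by linarith)]
      linarith
    linarith
  have hPe : P ≤ Real.exp (-s) := by
    rw [hP, hs, ← sum_neg_distrib, Real.exp_sum]
    apply Finset.prod_le_prod
    · intro p hp
      have : (2 : ℝ) ≤ p := by exact_mod_cast (Nat.prime_of_mem_primeFactors hp).two_le
      have : (1 : ℝ) / p ≤ 1 := by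
        rw [div_le_one (by linarith)]
        linarith
      linarith
    · intro p _
      have := Real.add_one_le_exp (-((1 : ℝ) / p))
      linarith
  have hse : s ≤ Real.exp s := by
    have := Real.add_one_le_exp s
    linarith
  have hsP : s * P ≤ 1 := by
    calc s * P ≤ Real.exp s * Real.exp (-s) := mul_le_mul hse hPe hP0 (Real.exp_pos _).le
      _ = 1 := by rw [← Real.exp_add]; simp
  have hA : 0 ≤ A₀ := by
    by_contra hneg
    push Not at hneg
    have : A₀ * P ≤ 0 := mul_nonpos_of_nonpos_of_nonneg hneg.le hP0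
    linarith
  calc s = s * 1 := (mul_one s).symm
    _ ≤ s * (A₀ * P) := mul_le_mul_of_nonneg_left h2 hs0
    _ = A₀ * (s * P) := by ring
    _ ≤ A₀ * 1 := mul_le_mul_of_nonneg_left hsP hA
    _ = A₀ := mul_one _

theorem sum_inv_le_self (n : ℕ) : ∑ p ∈ n.primeFactors, (1 : ℝ) / p ≤ n := by
  have h1 : ∀ p ∈ n.primeFactors, (1 : ℝ) / p ≤ 1 := by
    intro p hp
    have : (2 : ℝ) ≤ p := by exact_mod_cast (Nat.prime_of_mem_primeFactors hp).two_le
    rw [div_le_one (by linarith)]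
    linarith
  refine (sum_le_card_nsmul _ _ _ h1).trans ?_
  rw [nsmul_eq_mul, mul_one]
  have h2 : n.primeFactors ⊆ Icc 1 n := by
    intro p hp
    rw [mem_Icc]
    exact ⟨(Nat.prime_of_mem_primeFactors hp).pos, Nat.le_of_mem_primeFactors hp⟩
  have h3 := card_le_card h2
  rw [Nat.card_Icc, Nat.add_sub_cancel] at h3
  exact_mod_cast h3

theorem sum_inv_mul (m n : ℕ) (hm : m ≠ 0) (hn : n ≠ 0) :
    ∑ p ∈ (m * n).primeFactors, (1 : ℝ) / p ≤ ∑ p ∈ m.primeFactors, (1 : ℝ) / p + ∑ p ∈ n.primeFactors, (1 : ℝ) / p := by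
  rw [Nat.primeFactors_mul hm hn]
  exact sum_union_le' _ fun i => by positivity

/-- the choice of the number of scales -/
theorem exists_scaleM (C₁ : ℝ) : ∃ Cy : ℝ, 1 ≤ Cy ∧ ∀ᶠ X : ℝ in atTop, ∀ y : ℝ,
    (Real.log X) ^ Cy ≤ y → y ≤ X → ∃ m : ℕ,
      (2:ℝ) ^ m ≤ (Real.log X) ^ (1 / 4 : ℝ) ∧
      Real.exp ((2:ℝ) ^ m * (C₁ * Real.log (Real.log X))) ≤ y ∧
      1 ≤ Real.log (Real.log y / Real.log (Real.log X)) ∧
      Real.log (Real.log y / Real.log (Real.log X)) ≤ Real.log (Real.log X) ∧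
      Real.log (Real.log y / Real.log (Real.log X)) ≤ 4 * ((m : ℝ) + 1) := by
  set C : ℝ := max 1 C₁ with hC
  have hC1 : 1 ≤ C := le_max_left _ _
  have hCC : C₁ ≤ C := le_max_right _ _
  refine ⟨4 * C ^ 2, by nlinarith, ?_⟩
  filter_upwards [Real.tendsto_log_atTop.eventually_ge_atTop 1,
    (Real.tendsto_log_atTop.comp Real.tendsto_log_atTop).eventually_ge_atTop 1,
    eventually_gt_atTop 0] with X hL1 hl1 hX0 y hy1 hy2
  replace hl1 : 1 ≤ Real.log (Real.log X) := hl1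
  set L : ℝ := Real.log X with hL
  set l : ℝ := Real.log L with hl
  have hl0 : 0 < l := by linarith
  have hLpos : 0 < L := by linarith
  have hy0 : 0 < y := lt_of_lt_of_le (Real.rpow_pos_of_pos hLpos _) hy1
  have hlogy : (4 * C ^ 2) * l ≤ Real.log y := by
    have h1 := Real.log_le_log (Real.rpow_pos_of_pos hLpos _) hy1
    rwa [Real.log_rpow hLpos] at h1
  have hlogyL : Real.log y ≤ L := Real.log_le_log hy0 hy2
  have hlogy0 : 0 < Real.log y := lt_of_lt_of_le (by positivity) hlogy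
  have hq : 4 * C ^ 2 ≤ Real.log y / l := by rwa [le_div_iff₀ hl0]
  have hq4 : 4 ≤ Real.log y / l := by nlinarith
  have hD1 : 1 ≤ Real.log (Real.log y / l) := by
    rw [Real.le_log_iff_exp_le (by linarith)]
    have := Real.exp_one_lt_d9
    linarith
  have hDl : Real.log (Real.log y / l) ≤ l := by
    apply Real.log_le_log (by linarith)
    rw [div_le_iff₀ hl0]
    nlinarith
  set W₁ : ℝ := Real.log y / (C * l) with hW₁
  have hWeq : Real.log y / l = W₁ * C := by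
    rw [hW₁]
    field_simp
  have hW₁C : C ≤ W₁ := by
    rw [hWeq] at hq
    have h0 : 0 < C := by linarith
    nlinarith
  set W : ℝ := min W₁ (L ^ (1 / 4 : ℝ)) with hW
  have hL14 : 1 ≤ L ^ (1 / 4 : ℝ) := Real.one_le_rpow hL1 (by norm_num)
  have hW1 : 1 ≤ W := le_min (hC1.trans hW₁C) hL14
  have hW0 : 0 < W := by linarith
  have hfl : ⌊W⌋₊ ≠ 0 := by
    have : 1 ≤ ⌊W⌋₊ := Nat.le_floor (by push_cast; linarith)
    omega
  set m : ℕ := Nat.log 2 ⌊W⌋₊ with hm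
  have hm1 : (2:ℝ) ^ m ≤ W := by
    have e1 : 2 ^ m ≤ ⌊W⌋₊ := Nat.pow_log_le_self 2 hfl
    calc (2:ℝ) ^ m ≤ (⌊W⌋₊ : ℝ) := by exact_mod_cast e1
      _ ≤ W := Nat.floor_le (by linarith)
  have hm2 : W < (2:ℝ) ^ (m + 1) := by
    have e1 : ⌊W⌋₊ < 2 ^ (m + 1) := Nat.lt_pow_succ_log_self (by norm_num) _
    have e2 : ⌊W⌋₊ + 1 ≤ 2 ^ (m + 1) := e1
    calc W < (⌊W⌋₊ : ℝ) + 1 := Nat.lt_floor_add_one W
      _ ≤ (2:ℝ) ^ (m + 1) := by exact_mod_cast e2
  have hlogW : Real.log W ≤ (m : ℝ) + 1 := by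
    have e2 : Real.log W ≤ ((m + 1 : ℕ) : ℝ) * Real.log 2 := by
      rw [← Real.log_pow]
      exact Real.log_le_log hW0 hm2.le
    have e3 := Real.log_two_lt_d9
    have e4 : (0:ℝ) ≤ ((m + 1 : ℕ) : ℝ) := Nat.cast_nonneg _
    push_cast at e2 e4
    nlinarith
  refine ⟨m, hm1.trans (min_le_right _ _), ?_, hD1, hDl, ?_⟩
  · have h3 : (2:ℝ) ^ m * (C₁ * l) ≤ Real.log y := by
      have h4 : W₁ * (C * l) = Real.log y := by
        rw [hW₁]
        field_simp
      rw [← h4]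
      have h5 : (2:ℝ) ^ m ≤ W₁ := hm1.trans (min_le_left _ _)
      have h6 : C₁ * l ≤ C * l := mul_le_mul_of_nonneg_right hCC hl0.le
      have h7 : (0:ℝ) < 2 ^ m := by positivity
      calc (2:ℝ) ^ m * (C₁ * l) ≤ (2:ℝ) ^ m * (C * l) := mul_le_mul_of_nonneg_left h6 h7.le
        _ ≤ W₁ * (C * l) := mul_le_mul_of_nonneg_right h5 (by positivity)
    calc Real.exp ((2:ℝ) ^ m * (C₁ * l)) ≤ Real.exp (Real.log y) := Real.exp_le_exp.2 h3
      _ = y := Real.exp_log hy0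
  · rcases le_total W₁ (L ^ (1 / 4 : ℝ)) with hc | hc
    · have hWW : W = W₁ := min_eq_left hc
      rw [hWW] at hlogW hW0
      rw [hWeq, Real.log_mul hW0.ne' (by linarith)]
      have h1 := Real.log_le_log (by linarith : 0 < C) hW₁C
      have h2 : (0:ℝ) ≤ m := Nat.cast_nonneg m
      linarith
    · have hWW : W = L ^ (1 / 4 : ℝ) := min_eq_right hc
      rw [hWW, Real.log_rpow hLpos, ← hl] at hlogW
      linarith

/-- one linear form (after `Pool.Agent.TH101.RG.one_form`, helper101), with a free sieving limit `y` -/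
theorem one_formM (A0 : ℝ) (hA0 : 0 ≤ A0) (D : ℕ) : ∃ c Cy : ℝ, 0 < c ∧ 1 ≤ Cy ∧ ∀ d : ℕ, Squarefree d →
    ∀ᶠ X : ℝ in atTop, ∀ y : ℝ, (Real.log X) ^ Cy ≤ y → y ≤ X →
    ∀ (a : ℤ) (g : ℕ), g ≠ 0 → a ∣ g → d ∣ g → ∑ p ∈ g.primeFactors, (1 : ℝ) / p ≤ A0 →
    (g : ℝ) ≤ (Real.log X) ^ D →
    ∀ b : ℤ, |(b : ℝ)| ≤ X ^ D → ∀ h : ℕ, h.Coprime d → ∀ bad : Finset ℕ, (bad.card : ℝ) ≤ X ^ (9 / 10 : ℝ) →
    ∃ p : ℕ, p.Prime ∧ X < p ∧ (p : ℝ) ≤ 3 * X ∧ p ∉ bad ∧ p ≡ h [MOD d] ∧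
      ∀ m : ℤ, |(m : ℝ)| ≤ c * (RR X * Real.log (Real.log y / Real.log (Real.log X))) → b + m ≠ 0 →
        ∃ q : ℕ, q.Prime ∧ (q : ℝ) ≤ y ∧ ¬ q ∣ g ∧ (q : ℤ) ∣ a * p + b + m := by
  obtain ⟨A, c₃, C₁, hA4, hc₃, hC₁, hw⟩ := weightsM 3
  obtain ⟨c, hc, hcov⟩ := coverM 1 D A0 hA0 (c₃ / 8) (by positivity)
  obtain ⟨Cy, hCy, hsc⟩ := exists_scaleM C₁
  refine ⟨c, Cy, hc, hCy, fun d hd => ?_⟩
  obtain ⟨X1, hbv⟩ := bvrel_holds A (max 2 d)
  have t1 := Real.tendsto_log_atTop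
  have t2 : Tendsto (fun y : ℝ => Real.log (Real.log y)) atTop atTop := t1.comp t1
  filter_upwards [hw (max 2 d), hcov, exists_good, eventually_ge_atTop X1, eventually_ge_atTop 4,
    t2.eventually_ge_atTop (2 / c₃), t2.eventually_ge_atTop 10,
    t1.eventually (Pool.Agent.H398R2.RK.ev_log_le 1 one_pos),
    Real.tendsto_log_atTop.eventually_ge_atTop (100 + 4 * D + 4 * c₃ * (D + 1)),
    t1.eventually_ge_atTop (1000 * d), t2.eventually_ge_atTop (d + 1), hsc]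
    with X hwX hcovX hgX hX1 hX4 hl1 hl10 hlsq hL2 hLd hL2d hscX
  intro y hyL hyX a g hg0 hag hdg hgS hgD b hb hh hhd bad hbad
  obtain ⟨mm, hmm1, hmm2, hΔ1, hΔ2, hΔ3⟩ := hscX y hyL hyX
  obtain ⟨Δ, hΔ⟩ : ∃ Δ : ℝ, Δ = Real.log (Real.log y / Real.log (Real.log X)) := ⟨_, rfl⟩
  rw [← hΔ] at hΔ1 hΔ2 hΔ3
  rw [← hΔ]
  obtain ⟨ps, S, hps, hS, hBV⟩ := hbv X hX1
  have ha : a ≠ 0 := by
    rintro rfl
    rw [zero_dvd_iff] at hag
    exact hg0 (by exact_mod_cast hag)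
  set u : ℕ → ℕ := fun p => if p ∣ d then hh else 1 with hu
  obtain ⟨r, b', U0, hr0, hU0c, hU0, hbb', hrg, hmain⟩ := hcovX Δ hΔ1 hΔ2 ps S
    (goodP_mono (le_max_left _ _) hps) hS a g hg0 hag hgS hgD b (fun _ => 0) u (by
      intro p hp _ _
      rw [add_zero]
      simp only [hu]
      split_ifs with hpd
      · intro hph
        exact hp.one_lt.ne' (Nat.dvd_one.1 (hhd ▸ Nat.dvd_gcd hph hpd))
      · intro h1
        exact hp.one_lt.ne' (Nat.dvd_one.1 h1))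
  have hr : r.Coprime (WW X S ps) := by simpa using hr0 0
  simp only [Nat.cast_zero, mul_zero] at hU0 hmain
  set L := Real.log X with hL
  have hD0 : (0 : ℝ) ≤ D := Nat.cast_nonneg D
  have hL100 : 100 ≤ L := by
    have : 0 ≤ 4 * c₃ * ((D : ℝ) + 1) := by positivity
    linarith
  have hL0 : 0 < L := by linarith
  have hX0 : 0 < X := by linarith
  obtain ⟨l, hl⟩ : ∃ l : ℝ, l = Real.log L := ⟨_, rfl⟩
  rw [← hl] at hU0c hl1 hl10 hlsq
  have hl0 : 0 < l := by linarith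
  have hmml : (mm : ℝ) + 1 ≤ l := by
    rw [hl]
    exact m_le hL0 (by rw [← hl]; exact hl10) hmm1
  have hmm0 : (0 : ℝ) ≤ mm := Nat.cast_nonneg mm
  have hlL : l ^ 2 ≤ L := by
    have h1 : l ^ 2 ≤ (1 * Real.sqrt L) ^ 2 := pow_le_pow_left₀ hl0.le hlsq 2
    rwa [one_mul, Real.sq_sqrt hL0.le] at h1
  -- the survivors
  obtain ⟨k₀, hk₀1, hk₀⟩ : ∃ k₀ : ℕ, k₀ ≤ 1 ∧ b' + k₀ ≠ 0 := by
    by_cases h : b' = 0
    · exact ⟨1, le_rfl, by rw [h]; norm_num⟩
    · exact ⟨0, by norm_num, by simpa using h⟩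
  set U : Finset ℕ := insert k₀ U0 with hU
  have hUne : U.Nonempty := ⟨k₀, by rw [hU]; exact mem_insert_self _ _⟩
  have hUk : ∀ k ∈ U, (k : ℝ) ≤ L ^ 2 ∧ b' + k ≠ 0 := by
    intro k hk
    rw [hU, mem_insert] at hk
    rcases hk with rfl | hk
    · refine ⟨?_, hk₀⟩
      have : (k : ℝ) ≤ 1 := by exact_mod_cast hk₀1
      nlinarith
    · exact ⟨(hU0 k hk).1, (hU0 k hk).2 0⟩
  have hUc' : (U.card : ℝ) ≤ c₃ * ((mm : ℝ) + 1) * (L / l) := by
    have h1 : (U.card : ℝ) ≤ U0.card + 1 := by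
      rw [hU]
      exact_mod_cast card_insert_le k₀ U0
    have h2 : c₃ / 8 * Δ * (L / l) ≤ c₃ / 2 * ((mm : ℝ) + 1) * (L / l) := by
      apply mul_le_mul_of_nonneg_right _ (by positivity)
      calc c₃ / 8 * Δ ≤ c₃ / 8 * (4 * ((mm : ℝ) + 1)) := mul_le_mul_of_nonneg_left hΔ3 (by positivity)
        _ = c₃ / 2 * ((mm : ℝ) + 1) := by ring
    have h3 : l ≤ L / l := by
      rw [le_div_iff₀ hl0]
      linarith [sq l]
    have h4 : 1 ≤ c₃ / 2 * ((mm : ℝ) + 1) * (L / l) := by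
      rw [div_le_iff₀ hc₃] at hl1
      have h5 : c₃ / 2 * 1 * l ≤ c₃ / 2 * ((mm : ℝ) + 1) * (L / l) := by
        gcongr
        linarith
      linarith
    have h5 : c₃ * ((mm : ℝ) + 1) * (L / l) = c₃ / 2 * ((mm : ℝ) + 1) * (L / l) +
        c₃ / 2 * ((mm : ℝ) + 1) * (L / l) := by ring
    linarith
  have hUc : (U.card : ℝ) ≤ c₃ * L := by
    refine hUc'.trans ?_
    rw [mul_assoc]
    apply mul_le_mul_of_nonneg_left _ hc₃.le
    rw [mul_div_assoc', div_le_iff₀ hl0, mul_comm]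
    exact mul_le_mul_of_nonneg_left hmml hL0.le
  -- the excluded primes
  set Bx : Finset ℕ := insert ps (g.primeFactors ∪ U.biUnion (fun k : ℕ => (b' + k).natAbs.primeFactors))
    with hBx
  have hBxc : 2 * (Bx.card : ℝ) ≤ L ^ 4 := by
    have h1 : (Bx.card : ℝ) ≤ g.primeFactors.card +
        ∑ k ∈ U, ((b' + (k : ℕ)).natAbs.primeFactors.card : ℝ) + 1 := by
      have h2 : Bx.card ≤ g.primeFactors.card +
          ∑ k ∈ U, (b' + (k : ℕ)).natAbs.primeFactors.card + 1 := by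
        rw [hBx]
        refine (card_insert_le _ _).trans ?_
        apply Nat.add_le_add_right
        refine (card_union_le _ _).trans ?_
        apply Nat.add_le_add_left
        exact card_biUnion_le
      exact_mod_cast h2
    have ha1 : 1 ≤ g := Nat.pos_of_ne_zero hg0
    have h2 : (g.primeFactors.card : ℝ) ≤ 2 * (D * L) := by
      refine (Pool.Agent.H398R2.RK.card_primeFactors_le _ ha1).trans ?_
      have h3 : Real.log (g : ℝ) ≤ D * Real.log L := by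
        have := Real.log_le_log (by exact_mod_cast ha1) hgD
        rwa [Real.log_pow] at this
      have h4 : Real.log L ≤ L := (Real.log_le_sub_one_of_pos hL0).trans (by linarith)
      have h5 : (D : ℝ) * Real.log L ≤ D * L := mul_le_mul_of_nonneg_left h4 hD0
      linarith
    have h3 : ∀ k ∈ U, ((b' + (k : ℕ)).natAbs.primeFactors.card : ℝ) ≤ 2 * ((D + 1) * L) := by
      intro k hk
      obtain ⟨hk1, hk2⟩ := hUk k hk
      refine (Pool.Agent.H398R2.RK.card_primeFactors_le _ (Int.natAbs_pos.2 hk2)).trans ?_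
      apply mul_le_mul_of_nonneg_left _ (by norm_num)
      have h4 : (((b' + (k : ℕ)).natAbs : ℕ) : ℝ) ≤ X ^ (D + 1) := by
        have h5 : (((b' + (k : ℕ)).natAbs : ℕ) : ℝ) = |((b' + (k : ℕ) : ℤ) : ℝ)| := by
          rw [Nat.cast_natAbs, Int.cast_abs]
        rw [h5]
        have h6 : ((b' + (k : ℕ) : ℤ) : ℝ) = ((b' - b : ℤ) : ℝ) + (b : ℝ) + k := by
          push_cast; ring
        rw [h6]
        have h7 : |((b' - b : ℤ) : ℝ) + (b : ℝ) + k| ≤ |((b' - b : ℤ) : ℝ)| + |(b : ℝ)| + |(k : ℝ)| :=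
          abs_add_three _ _ _
        rw [abs_of_nonneg (Nat.cast_nonneg k : (0 : ℝ) ≤ k)] at h7
        have h8 : 4 * L ^ 2 ≤ X := by
          have h9 := Real.quadratic_le_exp_of_nonneg hL0.le
          have h10 := Real.exp_log hX0
          rw [← hL] at h10
          have h11 : L ^ 4 / 24 ≤ Real.exp L := by
            have := Real.pow_div_factorial_le_exp L hL0.le 4
            simpa [Nat.factorial] using this
          have h12 : 96 * L ^ 2 ≤ L ^ 4 := by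
            have h13 : (96 : ℝ) ≤ L ^ 2 := by nlinarith
            calc 96 * L ^ 2 ≤ L ^ 2 * L ^ 2 := mul_le_mul_of_nonneg_right h13 (by positivity)
              _ = L ^ 4 := by ring
          linarith
        have h9 : (1 : ℝ) ≤ X ^ D := one_le_pow₀ (by linarith)
        have h10 : X ^ (D + 1) = X ^ D * X := pow_succ _ _
        have h11 : 0 ≤ (X ^ D - 1) * (X - 1) := mul_nonneg (by linarith) (by linarith)
        rw [h10]
        nlinarith
      have h5 := Real.log_le_log (by exact_mod_cast Int.natAbs_pos.2 hk2) h4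
      rw [Real.log_pow] at h5
      push_cast at h5
      exact h5
    have h4 : ∑ k ∈ U, ((b' + (k : ℕ)).natAbs.primeFactors.card : ℝ) ≤ (c₃ * L) * (2 * ((D + 1) * L)) := by
      refine (sum_le_card_nsmul U _ _ h3).trans ?_
      rw [nsmul_eq_mul]
      exact mul_le_mul_of_nonneg_right hUc (by positivity)
    have h5 : 2 + 4 * D * L + 4 * c₃ * (D + 1) * L ^ 2 ≤ L ^ 4 := by
      have h6 : 1 ≤ L := by linarith
      have h7 : 2 + 4 * D * L + 4 * c₃ * (D + 1) * L ^ 2 ≤ (2 + 4 * D + 4 * c₃ * (D + 1)) * L ^ 2 := by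
        have e1 : (1 : ℝ) ≤ L ^ 2 := one_le_pow₀ h6
        have e2 : L ≤ L ^ 2 := by nlinarith
        have e3 : 4 * (D : ℝ) * L ≤ 4 * D * L ^ 2 := by gcongr
        nlinarith
      refine h7.trans ?_
      calc (2 + 4 * D + 4 * c₃ * (D + 1)) * L ^ 2 ≤ L * L ^ 2 := by
            apply mul_le_mul_of_nonneg_right _ (by positivity)
            linarith
        _ = L ^ 3 := by ring
        _ ≤ L ^ 4 := pow_le_pow_right₀ h6 (by norm_num)
    have h6 : 2 * (Bx.card : ℝ) ≤ 2 * (2 * (D * L) + (c₃ * L) * (2 * ((D + 1) * L)) + 1) := by linarith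
    refine h6.trans (le_trans (le_of_eq ?_) h5)
    ring
  obtain ⟨PP, hPP, hres⟩ := hwX mm hmm1 ps S hps hBV Bx U (by rw [hBx]; exact mem_insert_self _ _) hBxc hUne
    (by rw [hl] at hUc'; exact hUc')
  have hPg : ∀ q ∈ PP, ¬ q ∣ g := by
    intro q hq hd
    apply (hPP q hq).2.2.2
    rw [hBx, mem_insert, mem_union]
    right; left
    rw [Nat.mem_primeFactors]
    exact ⟨(hPP q hq).1, hd, hg0⟩
  have hPa : ∀ q ∈ PP, ¬ (q : ℤ) ∣ a := fun q hq hd => hPg q hq (by exact_mod_cast hd.trans hag)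
  have hPb : ∀ q ∈ PP, ∀ k ∈ U, ¬ (q : ℤ) ∣ b' + k := by
    intro q hq k hk hd
    apply (hPP q hq).2.2.2
    rw [hBx, mem_insert, mem_union]
    right; right
    rw [mem_biUnion]
    refine ⟨k, hk, ?_⟩
    rw [Nat.mem_primeFactors]
    exact ⟨(hPP q hq).1, Int.natCast_dvd.1 hd, Int.natAbs_ne_zero.2 (hUk k hk).2⟩
  -- the residues
  have hex : ∀ (q : ℕ) (k : ↥U), ∃ ρ : ℤ, q ∈ PP → (q : ℤ) ∣ a * ρ + (b' + ((k : ℕ) : ℤ)) := by
    intro q k
    by_cases hq : q ∈ PP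
    · obtain ⟨ρ, hρ⟩ := solve q (hPP q hq).1 a (b' + ((k : ℕ) : ℤ)) (hPa q hq)
      exact ⟨ρ, fun _ => hρ⟩
    · exact ⟨0, fun h => absurd h hq⟩
  choose res hresd using hex
  have hLA : L ^ 2 ≤ L ^ A := pow_le_pow_right₀ (by linarith) (by omega)
  obtain ⟨V, T, Z₁, M, M', M₂, w1, w2, w3, w4, w5, w6, w7, w8, w9, w10, w11⟩ := hres res
    (by
      intro q hq k l hkl hd
      have h1 := hresd q k hq
      have h2 := hresd q l hq
      have h3 : (q : ℤ) ∣ ((k : ℕ) : ℤ) - ((l : ℕ) : ℤ) := by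
        have h4 : ((k : ℕ) : ℤ) - ((l : ℕ) : ℤ) = (a * res q k + (b' + ((k : ℕ) : ℤ))) -
            (a * res q l + (b' + ((l : ℕ) : ℤ))) - a * (res q k - res q l) := by ring
        rw [h4]
        exact dvd_sub (dvd_sub h1 h2) (hd.mul_left a)
      exact not_dvd_diff (((hUk k k.2).1).trans hLA) (((hUk l l.2).1).trans hLA) (hPP q hq).2.1
        (fun h => hkl (Subtype.ext h)) h3)
    (by
      intro q hq k hd
      have h1 := hresd q k hq
      apply hPb q hq k k.2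
      have h2 := dvd_sub h1 (hd.mul_left a)
      rwa [add_sub_cancel_left] at h2) r hr
  obtain ⟨n, hnp, hXn, hn3, hnb, hnr, hTn⟩ := hgX (WW X S ps) r (WW_pos X S ps) (WW_le X (by linarith) S ps)
    V T Z₁ M M' M₂ w1 w2 w4 w5 w7 w8 w9 w10 w11 bad hbad
  refine ⟨n, hnp, hXn, hn3, hnb, ?_, fun m hm hbm => ?_⟩
  · apply modEq_of_primes hd
    intro p hp
    have hpp := Nat.prime_of_mem_primeFactors hp
    have hpd := Nat.dvd_of_mem_primeFactors hp
    have hd0 : 0 < d := Nat.pos_of_ne_zero hd.ne_zero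
    have hpled : p ≤ d := Nat.le_of_dvd hd0 hpd
    have hpPW : p ∈ PW X S ps := by
      refine mem_PW.2 ⟨?_, hpp, ?_, ?_⟩
      · refine hpled.trans ?_
        apply Nat.le_floor
        rw [le_div_iff₀ (by norm_num)]
        linarith
      · intro hpS
        have h1 := (hS.1 p hpS).2.1
        have h2 : Real.log (Real.log X) ^ 3 ≤ (z2 X : ℝ) := Nat.le_ceil _
        have h3 : (z2 X : ℝ) < p := by exact_mod_cast h1
        have h4 : (p : ℝ) ≤ d := by exact_mod_cast hpled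
        have h5 : (0 : ℝ) ≤ d := Nat.cast_nonneg d
        have h6 : Real.log (Real.log X) ≤ Real.log (Real.log X) ^ 3 := by
          have h7 : 1 ≤ Real.log (Real.log X) := by linarith
          calc Real.log (Real.log X) = Real.log (Real.log X) ^ 1 := (pow_one _).symm
            _ ≤ _ := pow_le_pow_right₀ h7 (by norm_num)
        linarith
      · rintro rfl
        rcases hps with h1 | h1
        · rw [h1] at hpp
          exact Nat.not_prime_one hpp
        · have := h1.2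
          have := le_max_right 2 d
          omega
    have h1 := hrg p hpPW (hpd.trans hdg)
    have h2 : u p = hh := by simp only [hu]; rw [if_pos hpd]
    rw [h2] at h1
    exact (hnr.of_dvd ((prime_dvd_WW hpp).2 hpPW)).trans h1
  rcases hmain m hm (fun _ => hbm) with ⟨k, hk, hbk⟩ | ⟨p, hp, hpy, hpa, hpd⟩
  · have hkU : k ∈ U := by rw [hU]; exact mem_insert_of_mem hk
    obtain ⟨q, hq, hqd⟩ := w3 n hTn ⟨k, hkU⟩
    refine ⟨q, (hPP q hq).1, (hPP q hq).2.2.1.trans hmm2, hPg q hq, ?_⟩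
    have h1 := hresd q ⟨k, hkU⟩ hq
    have h2 : a * (n : ℤ) + b + m = a * ((n : ℤ) - res q ⟨k, hkU⟩) +
        (a * res q ⟨k, hkU⟩ + (b' + (k : ℤ))) := by
      have : a * (n : ℤ) + b + m = a * n + (b + m) := by ring
      rw [this, hbk]
      ring
    rw [h2]
    exact dvd_add (hqd.mul_left a) h1
  · refine ⟨p, hp, ?_, hpa, hpd n hnr⟩
    have h1 : (p : ℝ) ≤ yy X := by exact_mod_cast hpy
    have h2 : (yy X : ℝ) ≤ L / 1000 := Nat.floor_le (by positivity)
    have h3 : L ^ (1 : ℝ) ≤ L ^ Cy := Real.rpow_le_rpow_of_exponent_le (by linarith) hCy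
    rw [Real.rpow_one] at h3
    linarith

/-- primes alone among the rough integers: windows around the linear images of primes -/
theorem alone (D : ℕ) (A₀ : ℝ) (d : ℕ) (hd : Squarefree d) : ∃ c Cy : ℝ, 0 < c ∧ 1 ≤ Cy ∧ ∀ᶠ X : ℝ in atTop,
    ∀ y : ℝ, (Real.log X) ^ Cy ≤ y → y ≤ X →
    ∀ a b : ℤ, a ≠ 0 → |(a : ℝ)| ≤ (Real.log X) ^ D → |(a : ℝ)| ≤ A₀ * (a.natAbs.totient : ℝ) →
    |(b : ℝ)| ≤ X ^ D → ∀ h : ℕ, h.Coprime d → ∀ bad : Finset ℕ, (bad.card : ℝ) ≤ X ^ (9 / 10 : ℝ) →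
    ∃ p : ℕ, p.Prime ∧ X < p ∧ (p : ℝ) ≤ 3 * X ∧ p ∉ bad ∧ p ≡ h [MOD d] ∧
      ∀ n : ℤ, |((n - (a * p + b) : ℤ) : ℝ)| ≤ c * (RR X * Real.log (Real.log y / Real.log (Real.log X))) →
        n ≠ a * p → ∃ q : ℕ, q.Prime ∧ (q : ℝ) ≤ y ∧ ¬ (q : ℤ) ∣ a * d ∧ (q : ℤ) ∣ n := by
  have hd0 : d ≠ 0 := hd.ne_zero
  obtain ⟨c, Cy, hc, hCy, hone⟩ := one_formM (|A₀| + d) (by positivity) (D + 1)
  refine ⟨c, Cy, hc, hCy, ?_⟩
  filter_upwards [hone d hd, Real.tendsto_log_atTop.eventually_ge_atTop (d : ℝ),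
    Real.tendsto_log_atTop.eventually_ge_atTop 1, eventually_ge_atTop 1]
    with X hX hLd hL1 hX1
  intro y hy1 hy2 a b ha haD haφ hb h hh bad hbad
  have hana : a.natAbs ≠ 0 := Int.natAbs_ne_zero.2 ha
  have hg0 : a.natAbs * d ≠ 0 := mul_ne_zero hana hd0
  have hacast : ((a.natAbs : ℕ) : ℝ) = |(a : ℝ)| := by rw [Nat.cast_natAbs, Int.cast_abs]
  have hgsum : ∑ p ∈ (a.natAbs * d).primeFactors, (1 : ℝ) / p ≤ |A₀| + d := by
    have h2 := sum_inv_mul a.natAbs d hana hd0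
    have h4 := sum_inv_le_self d
    have h5 := sum_inv_le_of_totient a.natAbs hana A₀ (by rw [hacast]; exact haφ)
    have h6 := le_abs_self A₀
    linarith
  have hgle : ((a.natAbs * d : ℕ) : ℝ) ≤ (Real.log X) ^ (D + 1) := by
    push_cast
    rw [hacast, pow_succ]
    exact mul_le_mul haD hLd (by positivity) (by positivity)
  have hag : a ∣ ((a.natAbs * d : ℕ) : ℤ) := by
    push_cast
    exact Dvd.dvd.mul_right ((dvd_abs a a).2 (dvd_refl a)) _
  obtain ⟨p, hp, hXp, hp3, hpb, hpd, hmain⟩ := hX y hy1 hy2 a (a.natAbs * d) hg0 hag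
    (dvd_mul_left d _) hgsum hgle b
    (hb.trans (pow_le_pow_right₀ hX1 (by omega))) h hh bad hbad
  refine ⟨p, hp, hXp, hp3, hpb, hpd, fun n hn hnp => ?_⟩
  obtain ⟨q, hq, hqy, hqg, hqd⟩ := hmain (n - (a * p + b)) hn (by
    intro h0
    apply hnp
    linarith)
  refine ⟨q, hq, hqy, ?_, ?_⟩
  · intro hdv
    apply hqg
    have h1 : (q : ℤ) ∣ ((a.natAbs * d : ℕ) : ℤ) := by
      push_cast
      rcases (Nat.prime_iff_prime_int.1 hq).dvd_mul.1 hdv with h2 | h2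
      · exact Dvd.dvd.mul_right ((dvd_abs _ _).2 h2) _
      · exact Dvd.dvd.mul_left h2 _
    exact_mod_cast h1
  · have h1 : a * (p : ℤ) + b + (n - (a * p + b)) = n := by ring
    rwa [h1] at hqd

end Pool.Agent.TH536.RI
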